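import Mathlib

/-!
# MP_5b5d66_al, genus one: idempotents of the quandle ring of the Dehn quandle of the torus

Isotopy classes of essential simple closed curves on the torus correspond to the primitive
vectors of `H_1 = ℤ²` up to sign; the geometric intersection number is `|det|` and the Dehn twist
about `w` is the transvection `v ↦ v + det (w, v) w`.
-/

namespace Pool.Agent.Results.MP_5b5d66_al.TorusIdempotents

/-- Primitive vectors of `ℤ²`. -/
def Prim : Type := {v : ℤ × ℤ // IsCoprime v.1 v.2}

/-- The algebraic intersection number (determinant). -/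
def om (v w : ℤ × ℤ) : ℤ := v.1 * w.2 - v.2 * w.1

/-- Primitive vectors up to sign. -/
def signRel : Setoid Prim where
  r v w := v.1 = w.1 ∨ v.1 = -w.1
  iseqv :=
    { refl := fun _ => Or.inl rfl
      symm := by
        rintro v w (h | h)
        · exact Or.inl h.symm
        · exact Or.inr (by rw [h, neg_neg])
      trans := by
        rintro u v w (h | h) (h' | h')
        · exact Or.inl (h.trans h')
        · exact Or.inr (h.trans h')
        · exact Or.inr (by rw [h, h'])
        · exact Or.inl (by rw [h, h', neg_neg]) }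

/-- The set `D_1` of isotopy classes of essential simple closed curves on the torus. -/
def Curve : Type := Quotient signRel

/-- The transvection `v ↦ v + det (w, v) w`. -/
def tw (w v : ℤ × ℤ) : ℤ × ℤ := (v.1 + om w v * w.1, v.2 + om w v * w.2)

theorem tw_coprime (w v : ℤ × ℤ) (h : IsCoprime v.1 v.2) : IsCoprime (tw w v).1 (tw w v).2 := by
  obtain ⟨a, b, hab⟩ := h
  refine ⟨a + w.2 * (a * w.1 + b * w.2), b - w.1 * (a * w.1 + b * w.2), ?_⟩
  simp only [tw, om]
  linear_combination hab

theorem tw_neg_left (w v : ℤ × ℤ) : tw (-w) v = tw w v := by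
  ext <;> simp [tw, om] <;> ring

theorem tw_neg_right (w v : ℤ × ℤ) : tw w (-v) = -tw w v := by
  ext <;> simp [tw, om] <;> ring

/-- The Dehn twist `T_β (α)` (first argument `β`, second argument `α`). -/
def twist : Curve → Curve → Curve :=
  Quotient.map₂ (fun w v : Prim => (⟨tw w.1 v.1, tw_coprime w.1 v.1 v.2⟩ : Prim)) (by
    rintro w w' hw v v' hv
    have h1 : tw w.1 v.1 = tw w'.1 v.1 := by
      rcases hw with h | h
      · rw [h]
      · rw [h, tw_neg_left]
    rcases hv with h | h
    · exact Or.inl (by show tw w.1 v.1 = tw w'.1 v'.1; rw [h1, h])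
    · exact Or.inr (by show tw w.1 v.1 = -tw w'.1 v'.1; rw [h1, h, tw_neg_right]))

/-- The geometric intersection number. -/
def inter : Curve → Curve → ℕ :=
  Quotient.lift₂ (fun v w : Prim => (om v.1 w.1).natAbs) (by
    rintro v w v' w' hv hw
    have h1 : ∀ x y : ℤ × ℤ, (om (-x) y).natAbs = (om x y).natAbs := by
      intro x y
      have : om (-x) y = - om x y := by simp [om]; ring
      rw [this, Int.natAbs_neg]
    have h2 : ∀ x y : ℤ × ℤ, (om x (-y)).natAbs = (om x y).natAbs := by
      intro x y
      have : om x (-y) = - om x y := by simp [om]; ring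
      rw [this, Int.natAbs_neg]
    show (om v.1 w.1).natAbs = (om v'.1 w'.1).natAbs
    rcases hv with h | h <;> rcases hw with h' | h' <;> rw [h, h'] <;> simp only [h1, h2])

open Classical in
/-- The product of the quandle ring `R[D_1]`, extending `α · β = T_β (α)` bilinearly. -/
noncomputable def qmul {R : Type*} [CommRing R] (u v : Curve →₀ R) : Curve →₀ R :=
  u.sum fun α m => v.sum fun β n => Finsupp.single (twist β α) (m * n)

/-! ### Vectors -/

/-- Two primitive vectors with determinant zero agree up to sign. -/
theorem eq_or_neg {v w : ℤ × ℤ} (hv : IsCoprime v.1 v.2) (hw : IsCoprime w.1 w.2)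
    (h : om v w = 0) : v = w ∨ v = -w := by
  obtain ⟨a, b, hab⟩ := hv
  obtain ⟨c, d, hcd⟩ := hw
  simp only [om] at h
  -- `w = k v` with `k = a w.1 + b w.2`
  set k := a * w.1 + b * w.2 with hk
  set l := c * v.1 + d * v.2 with hl
  have h1 : w.1 = k * v.1 := by
    rw [hk]; linear_combination (-w.1) * hab - b * h
  have h2 : w.2 = k * v.2 := by
    rw [hk]; linear_combination (-w.2) * hab + a * h
  have h3 : k * l = 1 := by
    rw [hl]; linear_combination hcd - c * h1 - d * h2
  rcases Int.isUnit_iff.1 (IsUnit.of_mul_eq_one _ h3) with h4 | h4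
  · left; ext
    · rw [h1, h4, one_mul]
    · rw [h2, h4, one_mul]
  · right; ext
    · simp [h1, h4]
    · simp [h2, h4]

/-- The main computation: if `|ω(a,b)| = Q ≥ 1` bounds all the intersection numbers, and
`T_a(b) = T_x(y)` with `ω(x,y) ≠ 0`, then `ω(a,x) = 0`. -/
theorem key {a b x y : ℤ × ℤ} (hb : IsCoprime b.1 b.2)
    (hx : IsCoprime x.1 x.2) {Q : ℤ} (hQ : 1 ≤ Q)
    (hab : om a b = Q ∨ om a b = -Q)
    (hxy : |om x y| ≤ Q) (hbx : |om x b| ≤ Q) (hay : |om a y| ≤ Q) (hby : |om y b| ≤ Q)
    (hc : tw a b = tw x y) (hcy : om x y ≠ 0) :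
    om a x = 0 := by
  by_contra hm
  have h1 := congrArg Prod.fst hc
  have h2 := congrArg Prod.snd hc
  have e1 : (om a b) ^ 2 = om y b + om x y * om x b := by
    simp only [tw, om] at h1 h2 ⊢
    linear_combination b.2 * h1 - b.1 * h2
  have e2 : om x b - om x y = om a b * om a x := by
    simp only [tw, om] at h1 h2 ⊢
    linear_combination x.1 * h2 - x.2 * h1
  have e4 : om b y = -(om a b) ^ 2 + om x y * om x b := by
    simp only [tw, om] at h1 h2 ⊢
    linear_combination b.2 * h1 - b.1 * h2
  have e5 : om a y = om a b - om x y * om a x := by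
    simp only [tw, om] at h1 h2 ⊢
    linear_combination a.2 * h1 - a.1 * h2
  have hq2 : (om a b) ^ 2 = Q ^ 2 := by rcases hab with h | h <;> rw [h] <;> ring
  have hsr : Q ≤ |om x b - om x y| := by
    rw [e2, abs_mul]
    have h1 : |om a b| = Q := by
      rcases hab with h | h <;> rw [h]
      · exact abs_of_nonneg (by omega)
      · rw [abs_neg]; exact abs_of_nonneg (by omega)
    rw [h1]
    have : 1 ≤ |om a x| := Int.one_le_abs hm
    nlinarith
  by_cases hs0 : om x b = 0
  · rw [hs0, mul_zero, add_zero, hq2] at e1 e4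
    have hQ1 : Q = 1 := by
      have := (abs_le.1 hby).2
      nlinarith
    subst hQ1
    rw [abs_le] at hay
    rcases eq_or_neg hx hb hs0 with h6 | h6
    · have h7 : om a x = om a b := by rw [h6]
      have h8 : om x y = om b y := by rw [h6]
      rw [h7, h8, e4] at e5
      omega
    · have h7 : om a x = -om a b := by rw [h6]; simp [om]; ring
      have h8 : om x y = -om b y := by rw [h6]; simp [om]; ring
      rw [h7, h8, e4] at e5
      omega
  · rw [hq2] at e1
    generalize om x b = s at *
    generalize om x y = r at *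
    generalize om y b = t at *
    rw [abs_le] at hxy hbx hby
    rcases lt_or_gt_of_ne hcy with hr0 | hr0 <;> rcases lt_or_gt_of_ne hs0 with hs | hs
    · rcases abs_cases (s - r) with ⟨h, _⟩ | ⟨h, _⟩ <;> omega
    · have : r * s < 0 := mul_neg_of_neg_of_pos hr0 hs
      nlinarith
    · have : r * s < 0 := mul_neg_of_pos_of_neg hr0 hs
      nlinarith
    · rcases abs_cases (s - r) with ⟨h, _⟩ | ⟨h, _⟩ <;> omega

/-! ### Curves -/

/-- A representing vector. -/
noncomputable def rep (α : Curve) : ℤ × ℤ := (Quotient.out α).1

theorem rep_coprime (α : Curve) : IsCoprime (rep α).1 (rep α).2 := (Quotient.out α).2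

theorem inter_eq (α β : Curve) : inter α β = (om (rep α) (rep β)).natAbs := by
  conv_lhs => rw [← Quotient.out_eq α, ← Quotient.out_eq β]
  rfl

theorem twist_eq (β α : Curve) :
    twist β α = Quotient.mk signRel ⟨tw (rep β) (rep α), tw_coprime _ _ (rep_coprime α)⟩ := by
  conv_lhs => rw [← Quotient.out_eq α, ← Quotient.out_eq β]
  rfl

theorem eq_of_rep {α β : Curve} (h : rep α = rep β ∨ rep α = -rep β) : α = β := by
  rw [← Quotient.out_eq α, ← Quotient.out_eq β]
  exact Quotient.sound h

theorem eq_of_om {α β : Curve} (h : om (rep α) (rep β) = 0) : α = β :=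
  eq_of_rep (eq_or_neg (rep_coprime α) (rep_coprime β) h)

theorem eq_of_inter {α β : Curve} (h : inter α β = 0) : α = β := by
  rw [inter_eq, Int.natAbs_eq_zero] at h
  exact eq_of_om h

theorem om_self (v : ℤ × ℤ) : om v v = 0 := by simp [om]; ring

theorem inter_self (α : Curve) : inter α α = 0 := by
  rw [inter_eq, om_self]; rfl

theorem twist_self (α : Curve) : twist α α = α := by
  rw [twist_eq]
  conv_rhs => rw [← Quotient.out_eq α]
  apply Quotient.sound
  left
  show tw (rep α) (rep α) = rep α
  ext <;> simp [tw, om_self]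

theorem tw_inj {w v v' : ℤ × ℤ} (h : tw w v = tw w v') : v = v' := by
  have h1 := congrArg Prod.fst h
  have h2 := congrArg Prod.snd h
  have h3 : om w v = om w v' := by
    simp only [tw, om] at h1 h2 ⊢
    linear_combination w.1 * h2 - w.2 * h1
  simp only [tw] at h1 h2
  rw [h3] at h1 h2
  ext
  · linarith
  · linarith

theorem twist_inj {a b y : Curve} (h : twist a b = twist a y) : b = y := by
  rw [twist_eq, twist_eq] at h
  rcases Quotient.exact h with h1 | h1
  · exact eq_of_rep (Or.inl (tw_inj h1))
  · refine eq_of_rep (Or.inr (tw_inj (w := rep a) ?_))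
    rw [tw_neg_right]
    exact h1

theorem abs_le_of_inter {α β : Curve} {Q : ℕ} (h : inter α β ≤ Q) :
    |om (rep α) (rep β)| ≤ (Q : ℤ) := by
  rw [inter_eq] at h
  rw [Int.abs_eq_natAbs]
  exact_mod_cast h

theorem uniq {S : Finset Curve} {Q : ℕ} (hQ : 1 ≤ Q)
    (hS : ∀ α ∈ S, ∀ β ∈ S, inter α β ≤ Q) {a b x y : Curve} (ha : a ∈ S) (hb : b ∈ S)
    (hab : inter a b = Q) (hc : twist a b ∉ S) (hx : x ∈ S) (hy : y ∈ S)
    (h : twist x y = twist a b) : x = a ∧ y = b := by
  have hne : om (rep x) (rep y) ≠ 0 := by
    intro h0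
    have := eq_of_om h0
    subst this
    rw [twist_self] at h
    exact hc (h ▸ hx)
  have hax : om (rep a) (rep x) = 0 := by
    have h' := h.symm
    rw [twist_eq, twist_eq] at h'
    have hq : om (rep a) (rep b) = (Q : ℤ) ∨ om (rep a) (rep b) = -(Q : ℤ) := by
      rw [inter_eq] at hab
      omega
    have b1 := abs_le_of_inter (hS x hx y hy)
    have b2 := abs_le_of_inter (hS x hx b hb)
    have b3 := abs_le_of_inter (hS a ha y hy)
    have b4 := abs_le_of_inter (hS y hy b hb)
    rcases Quotient.exact h' with h1 | h1
    · exact key (rep_coprime b) (rep_coprime x) (by exact_mod_cast hQ) hq b1 b2 b3 b4 h1 hne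
    · have n1 : ∀ v w : ℤ × ℤ, om v (-w) = -om v w := by intro v w; simp [om]; ring
      have n2 : ∀ v w : ℤ × ℤ, om (-v) w = -om v w := by intro v w; simp [om]; ring
      refine key (y := -rep y) (rep_coprime b) (rep_coprime x) (by exact_mod_cast hQ) hq ?_ b2
        ?_ ?_ ?_ ?_
      · rw [n1, abs_neg]; exact b1
      · rw [n1, abs_neg]; exact b3
      · rw [n2, abs_neg]; exact b4
      · rw [tw_neg_right]; exact h1
      · rw [n1]; exact neg_ne_zero.2 hne
  have hxa : x = a := (eq_of_om hax).symm
  subst hxa
  exact ⟨rfl, twist_inj h⟩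

theorem inter_mk (v : Prim) (β : Curve) :
    inter (Quotient.mk signRel v) β = (om v.1 (rep β)).natAbs := by
  conv_lhs => rw [← Quotient.out_eq β]
  rfl

theorem inter_mk_mk (v w : Prim) :
    inter (Quotient.mk signRel v) (Quotient.mk signRel w) = (om v.1 w.1).natAbs := rfl

theorem om_twist (a b : Curve) : inter (twist a b) b = inter a b ^ 2 := by
  rw [twist_eq, inter_mk, inter_eq a b, ← Int.natAbs_pow]
  congr 1
  simp only [tw, om]; ring

theorem om_twist2 (a b : Curve) : inter (twist a b) (twist b a) = inter a b + inter a b ^ 3 := by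
  rw [twist_eq, twist_eq, inter_mk_mk, inter_eq a b]
  have : om (tw (rep a) (rep b)) (tw (rep b) (rep a)) =
      -(om (rep a) (rep b) * (1 + om (rep a) (rep b) ^ 2)) := by
    simp only [tw, om]; ring
  rw [this, Int.natAbs_neg, Int.natAbs_mul]
  have h2 : (1 + om (rep a) (rep b) ^ 2).natAbs = 1 + (om (rep a) (rep b)).natAbs ^ 2 := by
    zify
    rw [abs_of_nonneg (by positivity), sq_abs]
  rw [h2]; ring

theorem qmul_apply {R : Type*} [CommRing R] (u : Curve →₀ R) (c : Curve) [DecidableEq Curve] :
    qmul u u c = ∑ α ∈ u.support, ∑ β ∈ u.support, if twist β α = c then u α * u β else 0 := by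
  unfold qmul
  rw [Finsupp.sum, Finsupp.finsetSum_apply]
  refine Finset.sum_congr rfl fun α _ => ?_
  rw [Finsupp.sum, Finsupp.finsetSum_apply]
  refine Finset.sum_congr rfl fun β _ => ?_
  rw [Finsupp.single_apply]

theorem idem {R : Type*} [CommRing R] [IsDomain R] (u : Curve →₀ R) :
    (u ≠ 0 ∧ qmul u u = u) ↔ ∃ α : Curve, u = Finsupp.single α 1 := by
  classical
  constructor
  · rintro ⟨h0, hu⟩
    have hne : u.support.Nonempty := Finsupp.support_nonempty_iff.2 h0
    obtain ⟨⟨a, b⟩, hm, hmax⟩ := (u.support ×ˢ u.support).exists_max_image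
      (fun p => inter p.1 p.2) (hne.product hne)
    rw [Finset.mem_product] at hm
    obtain ⟨ha, hb⟩ := hm
    have hS : ∀ α ∈ u.support, ∀ β ∈ u.support, inter α β ≤ inter a b := fun α hα β hβ =>
      hmax (α, β) (Finset.mk_mem_product hα hβ)
    simp only at ha hb
    rcases Nat.eq_zero_or_pos (inter a b) with hQ | hQ
    · -- only one curve
      have hall : ∀ α ∈ u.support, α = a := fun α hα => by
        apply eq_of_inter
        have := hS α hα a ha
        omega
      have hus : u = Finsupp.single a (u a) := by
        ext α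
        rw [Finsupp.single_apply]
        split_ifs with h
        · rw [h]
        · by_contra h1
          exact h (hall α (Finsupp.mem_support_iff.2 h1)).symm
      have h1 : qmul u u a = u a * u a := by
        have hsup : u.support = {a} := Finset.eq_singleton_iff_unique_mem.2 ⟨ha, hall⟩
        rw [qmul_apply, hsup]
        simp [twist_self]
      rw [hu] at h1
      have h2 : u a ≠ 0 := Finsupp.mem_support_iff.1 ha
      have h3 : u a = 1 := by
        have : u a * (u a - 1) = 0 := by linear_combination -h1
        rcases mul_eq_zero.1 this with h | h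
        · exact absurd h h2
        · exact sub_eq_zero.1 h
      exact ⟨a, by rw [hus, h3]⟩
    · exfalso
      -- a pair with maximal intersection whose twist is not in the support
      obtain ⟨a', b', ha', hb', hab', hc'⟩ : ∃ a' b', a' ∈ u.support ∧ b' ∈ u.support ∧
          inter a' b' = inter a b ∧ twist a' b' ∉ u.support := by
        rcases Nat.lt_or_ge 1 (inter a b) with h | h
        · refine ⟨a, b, ha, hb, rfl, fun hc => ?_⟩
          have h1 := hS _ hc b hb
          rw [om_twist] at h1
          nlinarith
        · have h1 : inter a b = 1 := by omega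
          by_cases hc : twist a b ∈ u.support
          · refine ⟨b, a, hb, ha, ?_, fun hc' => ?_⟩
            · rw [inter_eq, inter_eq]
              have : om (rep b) (rep a) = -om (rep a) (rep b) := by simp only [om]; ring
              rw [this, Int.natAbs_neg]
            · have h2 := hS _ hc _ hc'
              rw [om_twist2, h1] at h2
              omega
          · exact ⟨a, b, ha, hb, rfl, hc⟩
      have h1 : qmul u u (twist a' b') = u b' * u a' := by
        rw [qmul_apply, Finset.sum_eq_single b', Finset.sum_eq_single a', if_pos rfl]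
        · intro β hβ hne'
          rw [if_neg]
          intro h
          exact hne' (uniq hQ hS ha' hb' hab' hc' hβ hb' h).1
        · intro h; exact absurd ha' h
        · intro α hα hne'
          refine Finset.sum_eq_zero fun β hβ => ?_
          rw [if_neg]
          intro h
          exact hne' (uniq hQ hS ha' hb' hab' hc' hβ hα h).2
        · intro h; exact absurd hb' h
      rw [hu, Finsupp.notMem_support_iff.1 hc'] at h1
      rcases mul_eq_zero.1 h1.symm with h | h
      · exact Finsupp.mem_support_iff.1 hb' h
      · exact Finsupp.mem_support_iff.1 ha' h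
  · rintro ⟨α, rfl⟩
    refine ⟨by simp, ?_⟩
    unfold qmul
    rw [Finsupp.sum_single_index, Finsupp.sum_single_index, twist_self, mul_one]
    · simp
    · rw [Finsupp.sum_single_index] <;> simp

/-- **Result (genus one).** Disjoint curves on the torus are equal, and for every integral domain
`R` (for instance `ℤ`) the nonzero idempotents of the quandle ring `R[D_1]` of the Dehn quandle
of the torus are exactly the elements of `D_1`. -/
theorem result :
    (∀ α β : Curve, inter α β = 0 ↔ α = β) ∧
      ∀ (R : Type) [CommRing R] [IsDomain R] (u : Curve →₀ R),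
        (u ≠ 0 ∧ qmul u u = u) ↔ ∃ α : Curve, u = Finsupp.single α 1 :=
  ⟨fun α β => ⟨eq_of_inter, fun h => by rw [h, inter_self]⟩, fun _ _ _ u => idem u⟩

end Pool.Agent.Results.MP_5b5d66_al.TorusIdempotents
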